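import Mathlib

set_option autoImplicit false

namespace Pool.Agent.H.MP_a9eb04_an
open scoped ENNReal NNReal Topology
open MeasureTheory Set Filter Real

noncomputable def w (r t τ : ℝ) : ℝ≥0∞ :=
  if τ < t then ENNReal.ofReal (r * τ ^ (r - 1) * t ^ (-r)) else 0

theorem mw (r : ℝ) : Measurable fun z : ℝ × ℝ => w r z.1 z.2 :=
  Measurable.ite (measurableSet_lt measurable_snd measurable_fst) (by fun_prop) measurable_const

noncomputable def nu (r t a b : ℝ) : ℝ≥0∞ := ∫⁻ τ in Ioc a b, w r t τ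

theorem mnu (r a b : ℝ) : Measurable fun t => nu r t a b := (mw r).lintegral_prod_right'

theorem nu_tot {r t : ℝ} (hr : 0 < r) (ht : 0 < t) {s : Set ℝ} (ms : MeasurableSet s)
    (h1 : Ioo 0 t ⊆ s) (h2 : s ⊆ Ioi 0) : ∫⁻ τ in s, w r t τ = 1 := by
  have e : ∫⁻ τ in s, w r t τ =
      ∫⁻ τ in Ioo 0 t, ENNReal.ofReal (r * τ ^ (r - 1) * t ^ (-r)) := by
    rw [← lintegral_indicator ms, ← lintegral_indicator measurableSet_Ioo]
    refine lintegral_congr fun τ => ?_
    by_cases h : τ ∈ Ioo 0 t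
    · rw [indicator_of_mem h, indicator_of_mem (h1 h), w, if_pos h.2]
    · rw [indicator_of_notMem h]
      by_cases h' : τ ∈ s
      · rw [indicator_of_mem h', w, if_neg fun h3 => h ⟨h2 h', h3⟩]
      · rw [indicator_of_notMem h']
  have i : IntervalIntegrable (fun τ : ℝ => r * τ ^ (r - 1) * t ^ (-r)) volume 0 t :=
    ((intervalIntegral.intervalIntegrable_rpow' (by linarith)).const_mul r).mul_const _
  rw [e, ← ofReal_integral_eq_lintegral_ofReal (i.1.mono_set Ioo_subset_Ioc_self)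
    ((ae_restrict_iff' measurableSet_Ioo).2 (.of_forall fun τ h => by
      have := h.1.le; simp only [Pi.zero_apply]; positivity)),
    ← integral_Ioc_eq_integral_Ioo, ← intervalIntegral.integral_of_le ht.le,
    intervalIntegral.integral_mul_const, intervalIntegral.integral_const_mul,
    integral_rpow (Or.inl (by linarith)), sub_add_cancel, zero_rpow hr.ne', rpow_neg ht.le]
  have := rpow_pos_of_pos ht r
  rw [show r * ((t ^ r - 0) / r) * (t ^ r)⁻¹ = 1 by field_simp; simp]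
  simp

theorem nu_le {r t a : ℝ} (hr : 0 < r) (ht : 0 < t) (ha : 0 ≤ a) (b : ℝ) : nu r t a b ≤ 1 :=
  (lintegral_mono_set fun _ h => ha.trans_lt h.1).trans_eq
    (nu_tot hr ht measurableSet_Ioi Ioo_subset_Ioi_self subset_rfl)

theorem nu_one {r t b : ℝ} (hr : 0 < r) (ht : 0 < t) (hb : t < b) : nu r t 0 b = 1 :=
  nu_tot hr ht measurableSet_Ioc (fun _ h => ⟨h.1, (h.2.trans hb).le⟩) Ioc_subset_Ioi_self

theorem slice {p r τ : ℝ} (h : p.HolderConjugate r) (hτ : 0 < τ) :
    ∫⁻ t in Ioi 0, w r t τ ^ p * ENNReal.ofReal (t ^ (p - 1)) = ENNReal.ofReal (r ^ (p - 1)) := by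
  have hp := h.pos
  have hr := h.symm.pos
  have h1 : (r - 1) * p = r := h.symm.sub_one_mul_conj
  have h2 : -r * p + (p - 1) = -r - 1 := by linarith
  have e : ∫⁻ t in Ioi 0, w r t τ ^ p * ENNReal.ofReal (t ^ (p - 1)) =
      ∫⁻ t in Ioi τ, ENNReal.ofReal (r ^ p * τ ^ r * t ^ (-r - 1)) := by
    rw [← lintegral_indicator measurableSet_Ioi, ← lintegral_indicator measurableSet_Ioi]
    refine lintegral_congr fun t => ?_
    by_cases h : t ∈ Ioi τ
    · have ht : 0 < t := hτ.trans h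
      rw [indicator_of_mem h, indicator_of_mem (show t ∈ Ioi 0 from ht), w, if_pos (show τ < t from h),
        ENNReal.ofReal_rpow_of_nonneg (by positivity) hp.le, ← ENNReal.ofReal_mul (by positivity),
        mul_rpow (by positivity) (by positivity), mul_rpow (by positivity) (by positivity),
        ← rpow_mul hτ.le, ← rpow_mul ht.le, mul_assoc _ _ (t ^ (p - 1)), ← rpow_add ht, h1, h2]
    · rw [indicator_of_notMem h]
      by_cases h' : t ∈ Ioi 0
      · rw [indicator_of_mem h', w, if_neg (show ¬ τ < t from h), ENNReal.zero_rpow_of_pos hp,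
          zero_mul]
      · rw [indicator_of_notMem h']
  rw [e, ← ofReal_integral_eq_lintegral_ofReal
    ((integrableOn_Ioi_rpow_of_lt (by linarith) hτ).const_mul _)
    ((ae_restrict_iff' measurableSet_Ioi).2 (.of_forall fun t h => by
      have := (hτ.trans h).le; simp only [Pi.zero_apply]; positivity)),
    integral_const_mul, integral_Ioi_rpow_of_lt (by linarith) hτ, sub_add_cancel, rpow_neg hτ.le,
    rpow_sub_one hr.ne']
  have := rpow_pos_of_pos hτ r
  congr 1
  field_simp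

theorem edge {p r a d : ℝ} (h : p.HolderConjugate r) (ha : 0 ≤ a) (hd : 0 ≤ d) :
    ∫⁻ t in Ioi 0, nu r t a (a + d) ^ p * ENNReal.ofReal (t ^ (p - 1)) ≤
      ENNReal.ofReal (r ^ (p - 1)) * ENNReal.ofReal d ^ p := by
  have hp := h.pos
  have q0 : 0 < p - 1 := h.sub_one_pos
  have v : volume (Ioc a (a + d)) = ENNReal.ofReal d := by simp
  have m := mw r
  have m1 : Measurable fun z : ℝ × ℝ => w r z.1 z.2 ^ p * ENNReal.ofReal (z.1 ^ (p - 1)) :=
    (m.pow_const p).mul (by fun_prop)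
  have k : ∀ t, nu r t a (a + d) ^ p * ENNReal.ofReal (t ^ (p - 1)) ≤ ENNReal.ofReal d ^ (p - 1) *
      ∫⁻ τ in Ioc a (a + d), w r t τ ^ p * ENNReal.ofReal (t ^ (p - 1)) := fun t => by
    have m2 : Measurable (w r t) := m.comp (measurable_const.prodMk measurable_id)
    have := ENNReal.lintegral_mul_le_Lp_mul_Lq (volume.restrict (Ioc a (a + d))) h
      (f := w r t) (g := fun _ => 1) m2.aemeasurable aemeasurable_const
    simp only [Pi.mul_apply, mul_one, ENNReal.one_rpow, lintegral_const, one_mul,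
      Measure.restrict_apply_univ, v] at this
    rw [lintegral_mul_const _ (m2.pow_const p), ← mul_assoc]
    gcongr
    refine (ENNReal.rpow_le_rpow this hp.le).trans_eq ?_
    rw [ENNReal.mul_rpow_of_nonneg _ _ hp.le, ← ENNReal.rpow_mul, ← ENNReal.rpow_mul,
      one_div_mul_cancel hp.ne', ENNReal.rpow_one, mul_comm, one_div_mul_eq_div,
      h.div_conj_eq_sub_one]
  refine (lintegral_mono k).trans_eq ?_
  rw [lintegral_const_mul _ m1.lintegral_prod_right', lintegral_lintegral_swap m1.aemeasurable,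
    setLIntegral_congr_fun measurableSet_Ioc fun τ hτ => slice h (ha.trans_lt hτ.1),
    setLIntegral_const, v, mul_left_comm]
  congr 1
  conv_rhs => rw [show p = p - 1 + 1 by ring, ENNReal.rpow_add_of_nonneg _ _ q0.le zero_le_one,
    ENNReal.rpow_one]

variable {V : Type} [PartialOrder V]

open Classical in
noncomputable def lo (F : Finset V) (φ : V → ℝ≥0) (a : V) : ℝ := ∑ b ∈ F.filter (· < a), (φ b : ℝ)

theorem lo0 (F : Finset V) (φ : V → ℝ≥0) (a : V) : 0 ≤ lo F φ a :=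
  Finset.sum_nonneg fun _ _ => NNReal.coe_nonneg _

theorem top {F G : Finset V} (φ : V → ℝ≥0) (h0 : G.Nonempty) (h1 : G ⊆ F)
    (h2 : IsChain (· ≤ ·) (G : Set V)) (h3 : ∀ a ∈ G, ∀ b ∈ F, b ≤ a → b ∈ G) :
    ∃ m ∈ G, ∃ H ⊂ G, (∀ a ∈ H, ∀ b ∈ F, b ≤ a → b ∈ H) ∧ lo F φ m = ∑ b ∈ H, (φ b : ℝ) ∧
      ∀ {M : Type} [AddCommMonoid M] (g : V → M), ∑ b ∈ G, g b = ∑ b ∈ H, g b + g m := by
  classical
  obtain ⟨m, hm⟩ := G.exists_maximal h0
  have e : F.filter (· < m) = G.erase m := by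
    ext b
    rw [Finset.mem_filter, Finset.mem_erase]
    refine ⟨fun h => ⟨h.2.ne, h3 m hm.1 b h.1 h.2.le⟩, fun h => ⟨h1 h.2, lt_of_le_of_ne ?_ h.1⟩⟩
    exact (h2 h.2 hm.1 h.1).elim id fun k => hm.2 h.2 k
  refine ⟨m, hm.1, G.erase m, Finset.erase_ssubset hm.1, fun a ha b hb hab => ?_, ?_,
    fun g => (Finset.sum_erase_add _ _ hm.1).symm⟩
  · rw [← e, Finset.mem_filter] at ha ⊢
    exact ⟨hb, hab.trans_lt ha.2⟩
  · rw [lo, ← e]

theorem cover {F : Finset V} (φ : V → ℝ≥0) (r t : ℝ) (G : Finset V) : G ⊆ F →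
    IsChain (· ≤ ·) (G : Set V) → (∀ a ∈ G, ∀ b ∈ F, b ≤ a → b ∈ G) →
    nu r t 0 (∑ b ∈ G, (φ b : ℝ)) ≤ ∑ b ∈ G, nu r t (lo F φ b) (lo F φ b + φ b) := by
  induction G using Finset.strongInduction with
  | H G ih =>
    intro h1 h2 h3
    rcases G.eq_empty_or_nonempty with rfl | h0
    · simp [nu]
    obtain ⟨m, -, H, k1, k2, k3, k4⟩ := top φ h0 h1 h2 h3
    rw [k4, k4, k3]
    refine le_trans ?_ (add_le_add_left (ih H k1 (k1.1.trans h1) (h2.mono k1.1) k2) _)
    exact (lintegral_mono_set Ioc_subset_Ioc_union_Ioc).trans (lintegral_union_le _ _ _)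

theorem upper {Ω : Type} [MeasurableSpace Ω] [Countable V] (geo : Ω → Set V)
    (hc : ∀ x, IsChain (· ≤ ·) (geo x)) (hl : ∀ x, IsLowerSet (geo x))
    (ms : ∀ a, MeasurableSet {x | a ∈ geo x}) {p r : ℝ} (h : p.HolderConjugate r) (κ : V → ℝ≥0)
    (μ : Measure Ω) (c : ℝ≥0∞)
    (H : ∀ (F : Finset V) (ψ : V → ℝ≥0), (∀ x ∈ ⋃ a ∈ F, {x | a ∈ geo x},
      1 ≤ ∑' a : geo x, (ψ a : ℝ≥0∞)) →
      μ (⋃ a ∈ F, {x | a ∈ geo x}) ≤ c * ∑' a, (ψ a : ℝ≥0∞) ^ p * κ a) (φ : V → ℝ≥0) :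
    ∫⁻ x, (∑' a : geo x, (φ a : ℝ≥0∞)) ^ p ∂μ ≤
      ENNReal.ofReal (p * r ^ (p - 1)) * c * ∑' a, (φ a : ℝ≥0∞) ^ p * κ a := by
  classical
  have hp := h.pos
  have hr := h.symm.pos
  obtain ⟨f, hf⟩ : ∃ f : Finset V → Ω → ℝ,
    f = fun F x => ∑ a ∈ F.filter (· ∈ geo x), (φ a : ℝ) := ⟨_, rfl⟩
  have f0 : ∀ F x, 0 ≤ f F x := fun F x => hf ▸ Finset.sum_nonneg fun _ _ => NNReal.coe_nonneg _
  have mf : ∀ F, Measurable (f F) := fun F => by
    simp only [hf, Finset.sum_filter]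
    exact Finset.measurable_sum _ fun a _ => Measurable.ite (ms a) measurable_const measurable_const
  have e : ∀ x, (∑' a : geo x, (φ a : ℝ≥0∞)) ^ p = ⨆ F, ENNReal.ofReal (f F x ^ p) := fun x => by
    rw [tsum_subtype (geo x) fun a => (φ a : ℝ≥0∞), ENNReal.tsum_eq_iSup_sum]
    refine ((ENNReal.orderIsoRpow p hp).map_iSup _).trans (iSup_congr fun F => ?_)
    rw [ENNReal.orderIsoRpow_apply, ← ENNReal.ofReal_rpow_of_nonneg (f0 F x) hp.le, hf,
      ENNReal.ofReal_sum_of_nonneg fun _ _ => NNReal.coe_nonneg _, Finset.sum_filter]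
    simp only [indicator_apply, ENNReal.ofReal_coe_nnreal]
  simp only [e]
  rw [lintegral_iSup_directed (fun F => ((mf F).pow_const p).ennreal_ofReal.aemeasurable)
    (Monotone.directed_le fun F G hFG x => ENNReal.ofReal_le_ofReal (rpow_le_rpow (f0 F x) (by
      rw [hf]
      exact Finset.sum_le_sum_of_subset_of_nonneg (Finset.filter_subset_filter _ hFG)
        fun _ _ _ => NNReal.coe_nonneg _) hp.le))]
  refine iSup_le fun F => ?_
  rw [lintegral_rpow_eq_lintegral_meas_lt_mul μ (.of_forall (f0 F)) (mf F).aemeasurable hp]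
  have g2 : ∀ x, IsChain (· ≤ ·) (F.filter (· ∈ geo x) : Set V) := fun x =>
    (hc x).mono fun a ha => (Finset.mem_filter.1 ha).2
  have g3 : ∀ x, ∀ a ∈ F.filter (· ∈ geo x), ∀ b ∈ F, b ≤ a → b ∈ F.filter (· ∈ geo x) :=
    fun x a ha b hb hab => Finset.mem_filter.2 ⟨hb, hl x hab (Finset.mem_filter.1 ha).2⟩
  have k : ∀ t ∈ Ioi (0 : ℝ), μ {x | t < f F x} * ENNReal.ofReal (t ^ (p - 1)) ≤
      c * ∑ a ∈ F, κ a * (nu r t (lo F φ a) (lo F φ a + φ a) ^ p * ENNReal.ofReal (t ^ (p - 1))) :=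
    fun t ht => by
      obtain ⟨ψ, hψ⟩ : ∃ ψ : V → ℝ≥0, ∀ a, (ψ a : ℝ≥0∞) =
          if a ∈ F then nu r t (lo F φ a) (lo F φ a + φ a) else 0 :=
        ⟨fun a => (if a ∈ F then nu r t (lo F φ a) (lo F φ a + φ a) else 0).toNNReal, fun a =>
          ENNReal.coe_toNNReal (by
            split_ifs
            · exact ne_top_of_le_ne_top ENNReal.one_ne_top (nu_le hr ht (lo0 _ _ _) _)
            · simp)⟩
      have a1 := H (F.filter fun a => t < lo F φ a + φ a) ψ fun x hx => by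
        simp only [mem_iUnion, Finset.mem_filter, mem_ofPred_eq] at hx
        obtain ⟨a, ⟨a1, a2⟩, a3⟩ := hx
        have : t < f F x := by
          refine a2.trans_le ?_
          rw [hf, lo, add_comm, ← Finset.sum_insert (f := fun b => (φ b : ℝ)) (by simp)]
          refine Finset.sum_le_sum_of_subset_of_nonneg (fun b hb => ?_)
            fun _ _ _ => NNReal.coe_nonneg _
          simp only [Finset.mem_insert, Finset.mem_filter] at hb ⊢
          rcases hb with rfl | hb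
          · exact ⟨a1, a3⟩
          · exact ⟨hb.1, hl x hb.2.le a3⟩
        rw [← nu_one hr ht this, hf, tsum_subtype (geo x) fun a => (ψ a : ℝ≥0∞)]
        refine (cover φ r t _ (Finset.filter_subset _ _) (g2 x) (g3 x)).trans
          (le_of_eq_of_le (Finset.sum_congr rfl fun b hb => ?_) (ENNReal.sum_le_tsum _))
        rw [Finset.mem_filter] at hb
        rw [indicator_of_mem hb.2, hψ, if_pos hb.1]
      have a2 : {x | t < f F x} ⊆
          ⋃ a ∈ F.filter fun a => t < lo F φ a + φ a, {x | a ∈ geo x} := fun x hx => by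
        rw [mem_ofPred_eq, hf] at hx
        obtain ⟨m, k0, H, -, -, k3, k4⟩ := top φ (Finset.nonempty_of_sum_ne_zero
          (ht.trans hx).ne') (Finset.filter_subset _ _) (g2 x) (g3 x)
        rw [Finset.mem_filter] at k0
        simp only [mem_iUnion, Finset.mem_filter, mem_ofPred_eq]
        exact ⟨m, ⟨k0.1, by rw [k3, ← k4 fun b => (φ b : ℝ)]; exact hx⟩, k0.2⟩
      refine (mul_le_mul_left ((measure_mono a2).trans a1) _).trans_eq ?_
      rw [tsum_eq_sum (s := F) fun a ha => by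
        rw [hψ, if_neg ha, ENNReal.zero_rpow_of_pos hp, zero_mul], mul_assoc, Finset.sum_mul]
      congr 1
      refine Finset.sum_congr rfl fun a ha => ?_
      rw [hψ, if_pos ha]
      ring
  have m : ∀ a, Measurable fun t =>
      nu r t (lo F φ a) (lo F φ a + φ a) ^ p * ENNReal.ofReal (t ^ (p - 1)) := fun a =>
    ((mnu _ _ _).pow_const p).mul (by fun_prop)
  refine (mul_le_mul_right (setLIntegral_mono' measurableSet_Ioi k) _).trans ?_
  rw [lintegral_const_mul _ (Finset.measurable_sum _ fun a _ => (m a).const_mul _),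
    lintegral_finsetSum _ fun a _ => (m a).const_mul _, ENNReal.ofReal_mul hp.le, mul_assoc,
    mul_assoc, mul_left_comm (ENNReal.ofReal (r ^ (p - 1))) c]
  gcongr
  refine le_trans ?_ (mul_le_mul_right (ENNReal.sum_le_tsum F) _)
  rw [Finset.mul_sum]
  refine Finset.sum_le_sum fun a _ => ?_
  rw [lintegral_const_mul _ (m a), mul_comm, ← mul_assoc]
  gcongr
  exact (edge h (lo0 _ _ _) (φ a).coe_nonneg).trans_eq (by rw [ENNReal.ofReal_coe_nnreal])

end Pool.Agent.H.MP_a9eb04_an
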