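import Mathlib

set_option autoImplicit false

namespace Pool.Agent.H.MP_a9eb04_an
open scoped ENNReal NNReal Topology
open MeasureTheory Set Filter Real

theorem ex {Ω : Type} [MeasurableSpace Ω] (geo : Ω → Set ℕ) (hl : ∀ x, IsLowerSet (geo x))
    (ms : ∀ a, MeasurableSet {x | a ∈ geo x}) (pt : ℕ → Ω) (hpt : ∀ n, geo (pt n) = Iic n)
    {p h : ℝ} (hp : 1 < p) (hh : 0 < h) : ∃ (κ : ℕ → ℝ≥0) (μ : Measure Ω),
    (∀ (F : Finset ℕ) (ψ : ℕ → ℝ≥0), (∀ x ∈ ⋃ a ∈ F, {x | a ∈ geo x},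
      1 ≤ ∑' a : geo x, (ψ a : ℝ≥0∞)) →
      μ (⋃ a ∈ F, {x | a ∈ geo x}) ≤ ∑' a, (ψ a : ℝ≥0∞) ^ p * κ a) ∧
    ∀ k : ℝ, 0 ≤ k → (∀ φ : ℕ → ℝ≥0, ∫⁻ x, (∑' a : geo x, (φ a : ℝ≥0∞)) ^ p ∂μ ≤
      ENNReal.ofReal k * ∑' a, (φ a : ℝ≥0∞) ^ p * κ a) →
      (1 - exp (-(p * (p - 1) * h))) * (1 - exp (-(p * h))) ^ (p - 1) ≤
        k * (1 - exp (-((p - 1) * h))) ^ p := by
  classical
  obtain ⟨q, rfl⟩ : ∃ q, p = q + 1 := ⟨p - 1, by ring⟩
  have q0 : 0 < q := by linarith
  have p0 : 0 < q + 1 := by linarith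
  simp only [add_sub_cancel_right]
  have pos : ∀ c, 0 < c → 0 < 1 - exp (-c) := fun c hc => sub_pos.2 (exp_lt_one_iff.2 (by linarith))
  obtain ⟨A, hA⟩ : ∃ A, A = 1 - exp (-((q + 1) * h)) := ⟨_, rfl⟩
  obtain ⟨B, hB⟩ : ∃ B, B = 1 - exp (-(q * h)) := ⟨_, rfl⟩
  obtain ⟨c, hc⟩ : ∃ c, c = (q + 1) * q * h := ⟨_, rfl⟩
  have c0 : 0 < c := by rw [hc]; positivity
  have A0 : 0 < A := hA ▸ pos _ (by positivity)
  have B0 : 0 < B := hB ▸ pos _ (by positivity)
  have D0 := pos c c0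
  rw [← hA, ← hB, ← hc]
  obtain ⟨ρ, hρ⟩ : ∃ ρ : ℕ → ℝ, ρ = fun n : ℕ => exp ((q + 1) * h * n) * A := ⟨_, rfl⟩
  have ρ0 : ∀ n, 0 < ρ n := fun n => by rw [hρ]; positivity
  have ρs : ∀ n, ∑ i ∈ Finset.range (n + 1), ρ i ≤ exp ((q + 1) * h * n) := fun n => by
    induction n with
    | zero => simp [hρ, hA, (exp_pos _).le]
    | succ n ih =>
      rw [Finset.sum_range_succ]
      refine (add_le_add_left ih _).trans_eq ?_
      simp only [hρ, hA, mul_sub, ← exp_add]
      push_cast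
      ring_nf
  have tI : ∀ (n : ℕ) (ψ : ℕ → ℝ≥0), ∑' a : geo (pt n), (ψ a : ℝ≥0∞) =
      ENNReal.ofReal (∑ i ∈ Finset.range (n + 1), (ψ i : ℝ)) := fun n ψ => by
    rw [tsum_subtype (geo (pt n)) fun a => (ψ a : ℝ≥0∞), tsum_eq_sum (s := Finset.range (n + 1))
      fun a ha => indicator_of_notMem (by simpa [hpt, Nat.lt_succ_iff] using ha) _,
      ENNReal.ofReal_sum_of_nonneg fun _ _ => NNReal.coe_nonneg _]
    refine Finset.sum_congr rfl fun a ha => ?_
    rw [indicator_of_mem (by simpa [hpt, Nat.lt_succ_iff] using ha), ENNReal.ofReal_coe_nnreal]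
  have tE : ∀ (n : ℕ) (ψ : ℕ → ℝ≥0), ∑ a ∈ Finset.range n, (ψ a : ℝ≥0∞) ^ (q + 1) *
      (ρ a ^ (-q)).toNNReal = ENNReal.ofReal (∑ a ∈ Finset.range n,
        (ψ a : ℝ) ^ (q + 1) * ρ a ^ (-q)) := fun n ψ => by
    rw [ENNReal.ofReal_sum_of_nonneg fun a _ => by have := ρ0 a; positivity]
    refine Finset.sum_congr rfl fun a _ => ?_
    rw [ENNReal.ofReal_mul (by positivity), ← ENNReal.ofReal_rpow_of_nonneg (ψ a).coe_nonneg p0.le]
    exact congrArg₂ _ (congrArg (· ^ (q + 1)) ENNReal.ofReal_coe_nnreal.symm) rfl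
  refine ⟨fun n => (ρ n ^ (-q)).toNNReal, Measure.sum fun n : ℕ =>
    ENNReal.ofReal (exp (-c * n) * (1 - exp (-c))) • Measure.dirac (pt n), fun F ψ H => ?_,
    fun k k0 H => ?_⟩
  · rcases F.eq_empty_or_nonempty with rfl | h0
    · simp
    obtain ⟨n, hn⟩ : ∃ n, n = F.min' h0 := ⟨_, rfl⟩
    have a1 := H (pt n) (mem_iUnion₂.2 ⟨n, hn ▸ F.min'_mem h0, by simp [hpt]⟩)
    rw [tI, ENNReal.one_le_ofReal] at a1
    have a2 := inner_le_weight_mul_Lp_of_nonneg (Finset.range (n + 1)) hp.le ρ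
      (fun i => ψ i / ρ i) (fun i => (ρ0 i).le) fun i => div_nonneg (ψ i).coe_nonneg (ρ0 i).le
    have a3 : ∀ i, ρ i * (ψ i / ρ i) ^ (q + 1) = (ψ i : ℝ) ^ (q + 1) * ρ i ^ (-q) := fun i => by
      have := ρ0 i
      have := rpow_pos_of_pos this q
      rw [div_rpow (ψ i).coe_nonneg (ρ0 i).le, rpow_add_one (ρ0 i).ne', rpow_neg (ρ0 i).le]
      field_simp
    simp only [mul_div_cancel₀ _ (ρ0 _).ne', a3] at a2
    have s0 : 0 ≤ ∑ i ∈ Finset.range (n + 1), ρ i := Finset.sum_nonneg fun i _ => (ρ0 i).le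
    have s1 : 0 ≤ ∑ i ∈ Finset.range (n + 1), (ψ i : ℝ) ^ (q + 1) * ρ i ^ (-q) :=
      Finset.sum_nonneg fun i _ => by have := ρ0 i; positivity
    have a4 := one_le_rpow (a1.trans a2) p0.le
    rw [mul_rpow (by positivity) (by positivity), ← rpow_mul s0, ← rpow_mul s1,
      inv_mul_cancel₀ p0.ne', rpow_one, show (1 - (q + 1)⁻¹) * (q + 1) = q by field_simp; ring] at a4
    have a5 := a4.trans (mul_le_mul_of_nonneg_right (rpow_le_rpow s0 (ρs n) q0.le) s1)
    rw [← exp_mul, show (q + 1) * h * n * q = c * n by rw [hc]; ring, ← div_le_iff₀' (exp_pos _),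
      one_div, ← exp_neg] at a5
    refine le_trans ?_ (((ENNReal.ofReal_le_ofReal a5).trans_eq (tE _ _).symm).trans
      (ENNReal.sum_le_tsum _))
    refine (measure_mono (t := {x | n ∈ geo x}) (iUnion₂_subset fun a ha x hx =>
      hl x (hn ▸ F.min'_le a ha) hx)).trans_eq ?_
    rw [Measure.sum_apply _ (ms n), ← (add_left_injective n).tsum_eq fun a ha => by
      by_contra h'
      have : a < n := not_le.1 fun h => h' ⟨a - n, Nat.sub_add_cancel h⟩
      simp [Measure.dirac_apply' _ (ms n), hpt, this] at ha]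
    have b : ∀ j : ℕ, (ENNReal.ofReal (exp (-c * (j + n : ℕ)) * (1 - exp (-c))) •
        Measure.dirac (pt (j + n))) {x | n ∈ geo x} =
        ENNReal.ofReal (exp (-(c * n)) * (1 - exp (-c)) * exp (-c) ^ j) := fun j => by
      rw [Measure.smul_apply, Measure.dirac_apply_of_mem (by simp [hpt]), smul_eq_mul, mul_one,
        ← exp_nat_mul, mul_right_comm, ← exp_add]
      push_cast
      ring_nf
    have g1 : exp (-c) < 1 := by linarith
    simp only [b]
    rw [← ENNReal.ofReal_tsum_of_nonneg (fun j => by positivity)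
      ((summable_geometric_of_lt_one (exp_pos _).le g1).mul_left _), tsum_mul_left,
      tsum_geometric_of_lt_one (exp_pos _).le g1, mul_inv_cancel_right₀ D0.ne']
  · have key : ∀ N : ℕ, N * ((1 - exp (-c)) * A ^ q) ≤ k * (1 + N * B ^ (q + 1)) := fun N => by
      obtain ⟨φ, hφ⟩ : ∃ φ : ℕ → ℝ≥0, ∀ i, (φ i : ℝ) =
          if i = 0 then 1 else if i ≤ N then exp (q * h * i) * B else 0 :=
        ⟨fun i => ⟨if i = 0 then 1 else if i ≤ N then exp (q * h * i) * B else 0, by
          split_ifs <;> positivity⟩, fun _ => rfl⟩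
      have f1 : ∀ n ≤ N, ∑ i ∈ Finset.range (n + 1), (φ i : ℝ) = exp (q * h * n) := fun n hn => by
        induction n with
        | zero => simp [hφ]
        | succ n ih =>
          rw [Finset.sum_range_succ, ih (by omega), hφ, if_neg (by omega), if_pos hn]
          simp only [hB, mul_sub, ← exp_add]
          push_cast
          ring_nf
      have f2 : ∑ a ∈ Finset.range (N + 1), (φ a : ℝ) ^ (q + 1) * ρ a ^ (-q) =
          (1 + N * B ^ (q + 1)) * (A ^ q)⁻¹ := by
        rw [Finset.sum_range_succ', Finset.sum_congr rfl (g := fun _ => B ^ (q + 1) * (A ^ q)⁻¹)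
          fun a ha => by
            rw [hφ, if_neg (by omega), if_pos (by simpa using ha), hρ,
              mul_rpow (exp_pos _).le B0.le, mul_rpow (exp_pos _).le A0.le, ← exp_mul, ← exp_mul,
              rpow_neg A0.le, mul_mul_mul_comm, ← exp_add,
              show ∀ x : ℝ, q * h * x * (q + 1) + (q + 1) * h * x * -q = 0 from fun x => by ring,
              exp_zero, one_mul]]
        simp [hφ, hρ, rpow_neg A0.le]
        ring
      have a := H φ
      have mφ : Measurable fun x => (∑' a : geo x, (φ a : ℝ≥0∞)) ^ (q + 1) := by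
        simp only [fun x => tsum_subtype (geo x) fun a => (φ a : ℝ≥0∞), indicator_apply]
        exact (Measurable.ennreal_tsum fun a =>
          Measurable.ite (ms a) measurable_const measurable_const).pow_const _
      rw [tsum_eq_sum (s := Finset.range (N + 1)) fun a ha => by
        have : φ a = 0 := by
          rw [Finset.mem_range] at ha
          rw [← NNReal.coe_eq_zero, hφ, if_neg (by omega), if_neg (by omega)]
        simp [this, p0], tE, f2, lintegral_sum_measure, ← ENNReal.ofReal_mul k0] at a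
      have b := (ENNReal.sum_le_tsum (Finset.range N)).trans a
      rw [Finset.sum_congr rfl (g := fun _ => ENNReal.ofReal (1 - exp (-c))) fun n hn => by
        rw [lintegral_smul_measure, lintegral_dirac' _ mφ, tI, f1 n (Finset.mem_range.1 hn).le,
          ENNReal.ofReal_rpow_of_nonneg (exp_pos _).le p0.le, smul_eq_mul,
          ← ENNReal.ofReal_mul (by positivity), ← exp_mul, mul_right_comm, ← exp_add,
          show -c * n + q * h * n * (q + 1) = 0 by rw [hc]; ring, exp_zero, one_mul],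
        Finset.sum_const, Finset.card_range, nsmul_eq_mul, ← ENNReal.ofReal_natCast,
        ← ENNReal.ofReal_mul (by positivity), ENNReal.ofReal_le_ofReal_iff (by positivity),
        ← mul_assoc, ← div_eq_mul_inv, le_div_iff₀ (by positivity)] at b
      linarith
    refine not_lt.1 fun h' => ?_
    obtain ⟨N, hN⟩ := exists_nat_gt (k / ((1 - exp (-c)) * A ^ q - k * B ^ (q + 1)))
    rw [div_lt_iff₀ (sub_pos.2 h')] at hN
    linarith [key N]

theorem lim {p k : ℝ} (hp : 1 < p) (k0 : 0 ≤ k) (H : ∀ h, 0 < h →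
    (1 - exp (-(p * (p - 1) * h))) * (1 - exp (-(p * h))) ^ (p - 1) ≤
        k * (1 - exp (-((p - 1) * h))) ^ p) : p ^ p / (p - 1) ^ (p - 1) ≤ k := by
  obtain ⟨q, rfl⟩ : ∃ q, p = q + 1 := ⟨p - 1, by ring⟩
  have q0 : 0 < q := by linarith
  have p0 : 0 < q + 1 := by linarith
  simp only [add_sub_cancel_right] at H ⊢
  have a : ∀ x : ℝ, x * exp (-x) ≤ 1 - exp (-x) := fun x => by
    have := mul_le_mul_of_nonneg_right (add_one_le_exp x) (exp_pos (-x)).le
    rw [← exp_add, add_neg_cancel, exp_zero] at this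
    linarith
  have t : Tendsto (fun h => (q + 1) ^ (q + 1) / q ^ q * exp (-(2 * (q + 1) * q * h))) (𝓝[>] 0)
      (𝓝 ((q + 1) ^ (q + 1) / q ^ q)) :=
    tendsto_nhdsWithin_of_tendsto_nhds (Continuous.tendsto' (by fun_prop) _ _ (by simp))
  refine le_of_tendsto t (eventually_mem_nhdsWithin.mono fun h (hh : 0 < h) => ?_)
  have b1 : (1 - exp (-(q * h))) ^ (q + 1) ≤ (q * h) ^ (q + 1) :=
    rpow_le_rpow (sub_nonneg.2 (exp_le_one_iff.2 (by simp; positivity)))
      (by linarith [add_one_le_exp (-(q * h))]) p0.le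
  have b2 := (mul_le_mul (a _) (rpow_le_rpow (by positivity) (a ((q + 1) * h)) q0.le)
    (by positivity) ((by positivity : 0 ≤ (q + 1) * q * h * exp (-((q + 1) * q * h))).trans
    (a _))).trans ((H h hh).trans (mul_le_mul_of_nonneg_left b1 k0))
  rw [mul_rpow (by positivity) (by positivity), mul_rpow p0.le hh.le, mul_rpow q0.le hh.le,
    ← exp_mul, rpow_add_one q0.ne', rpow_add_one hh.ne'] at b2
  have e : exp (-(2 * (q + 1) * q * h)) =
      exp (-((q + 1) * q * h)) * exp (-((q + 1) * h) * q) := by rw [← exp_add]; ring_nf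
  have := rpow_pos_of_pos hh q
  have := rpow_pos_of_pos q0 q
  rw [e, rpow_add_one p0.ne', div_mul_eq_mul_div, div_le_iff₀ this]
  refine le_of_mul_le_mul_right (a := q * (h ^ q * h)) ?_ (by positivity)
  linarith

end Pool.Agent.H.MP_a9eb04_an
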